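import Mathlib
import Pool.Agent.Helper77.CoverC1
import Pool.Agent.Helper77.Evade
import Pool.Agent.Helper77.Coding

set_option autoImplicit false

/-!
# Covering the plane by few `C¹` graphs and by few differentiable graphs

For every cardinal `κ`: the plane is covered by fewer than `κ` graphs (and reflected graphs) of
`C¹` functions if and only if it is covered by fewer than `κ` graphs (and reflected graphs) of
differentiable functions. The proof uses the dominating number `𝔡`: a cover by differentiable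
graphs has at least `𝔡` members, and `𝔡` moduli of differentiability suffice for the construction
of `C¹` functions.
-/

open Set Filter Topology Cardinal
open Pool.Agent.Helper77.Coding

namespace Pool.Agent.Results.MP_8d1edd_lc.CoverC1EqD1

/-- The family `F` covers the plane: every point `(x, y)` lies on the graph of a member of `F`
or on the reflection (in the diagonal) of the graph of a member of `F`. -/
def CoversPlane (F : Set (ℝ → ℝ)) : Prop :=
  ∀ x y : ℝ, ∃ f ∈ F, f x = y ∨ f y = x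

/-- The plane is covered by fewer than `κ` graphs from the class `K`. -/
def CoveredByFewer (κ : Cardinal.{0}) (K : Set (ℝ → ℝ)) : Prop :=
  ∃ F : Set (ℝ → ℝ), F ⊆ K ∧ #F < κ ∧ CoversPlane F

/-- continuous functions -/
def C0 : Set (ℝ → ℝ) := {f | Continuous f}

/-- continuously differentiable functions -/
def C1 : Set (ℝ → ℝ) := {f | ContDiff ℝ 1 f}

/-- differentiable functions -/
def D1 : Set (ℝ → ℝ) := {f | Differentiable ℝ f}

/-- `D` is dominating: every `f : ℕ → ℕ` is eventually bounded by a member of `D`. -/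
def Dominating (D : Set (ℕ → ℕ)) : Prop :=
  ∀ f : ℕ → ℕ, ∃ g ∈ D, ∀ᶠ n in atTop, f n ≤ g n

/-- The dominating number `𝔡` (used in the proof only). -/
noncomputable def dominatingNumber : Cardinal.{0} :=
  sInf {c | ∃ D : Set (ℕ → ℕ), Dominating D ∧ #D = c}

lemma dominatingNumber_le {D : Set (ℕ → ℕ)} (hD : Dominating D) : dominatingNumber ≤ #D :=
  csInf_le' ⟨D, hD, rfl⟩

lemma exists_dominating : ∃ D : Set (ℕ → ℕ), Dominating D ∧ #D = dominatingNumber := by
  have : dominatingNumber ∈ {c | ∃ D : Set (ℕ → ℕ), Dominating D ∧ #D = c} :=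
    csInf_mem ⟨_, Set.univ, fun f => ⟨f, mem_univ _, Eventually.of_forall fun _ => le_rfl⟩, rfl⟩
  exact this

lemma aleph0_lt_dominatingNumber : ℵ₀ < dominatingNumber := by
  obtain ⟨D, hD, hc⟩ := exists_dominating
  by_contra hcon
  push Not at hcon
  rw [← hc] at hcon
  have hcount : D.Countable := Cardinal.le_aleph0_iff_set_countable.1 hcon
  have hne : D.Nonempty := by
    obtain ⟨g, hg, _⟩ := hD 0
    exact ⟨g, hg⟩
  obtain ⟨e, he⟩ := hcount.exists_eq_range hne
  obtain ⟨g, hg, h⟩ := hD fun n => (Finset.range (n + 1)).sup (fun i => e i n) + 1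
  rw [he] at hg
  obtain ⟨i, rfl⟩ := hg
  obtain ⟨N, hN⟩ := eventually_atTop.1 h
  have h1 := hN (max N i) (le_max_left _ _)
  have h2 : e i (max N i) ≤ (Finset.range (max N i + 1)).sup (fun j => e j (max N i)) :=
    Finset.le_sup (f := fun j => e j (max N i))
      (Finset.mem_range.2 (Nat.lt_succ_of_le (le_max_right _ _)))
  omega

lemma dominatingNumber_le_continuum : dominatingNumber ≤ 𝔠 := by
  have h : Dominating (Set.univ : Set (ℕ → ℕ)) :=
    fun f => ⟨f, mem_univ _, Eventually.of_forall fun _ => le_rfl⟩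
  refine (dominatingNumber_le h).trans ?_
  rw [Cardinal.mk_univ]
  simp

/-- A family of differentiable functions covering the plane has at least `𝔡` members. -/
theorem dominatingNumber_le_of_D1 {F : Set (ℝ → ℝ)} (hF : F ⊆ D1) (hcov : CoversPlane F) :
    dominatingNumber ≤ #F := by
  -- it is enough to show `𝔡 ≤ #F * ℵ₀`
  suffices h : dominatingNumber ≤ #F * ℵ₀ by
    have h1 : ℵ₀ < #F := by
      by_contra hcon
      push Not at hcon
      have h2 : #F * ℵ₀ ≤ ℵ₀ := (mul_le_mul_left hcon ℵ₀).trans (by simp)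
      exact absurd (h.trans h2) (not_le.2 aleph0_lt_dominatingNumber)
    rwa [Cardinal.mul_aleph0_eq h1.le] at h
  by_contra hcon
  push Not at hcon
  have hι : #(F × ℕ) < dominatingNumber := by
    rw [Cardinal.mk_prod]; simpa using hcon
  obtain ⟨x, hx⟩ := Pool.Agent.Helper77.Evade.exists_outside (ι := F × ℕ)
    (fun i => {x | val eX x ∈ A i.1.1 i.2 ∧ i.1.1 (val eX x) = val eY x})
    (fun i => {x | val eY x ∈ A i.1.1 i.2 ∧ i.1.1 (val eY x) = val eX x})
    (fun i => i.2 + 2)
    (fun i x hx x' hx' n hn hev h => piece_sep eX_succ eY_succ hn (eX_even hev) hx.1 hx.2 hx'.2 h)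
    (fun i x hx x' hx' n hn hod h => piece_sep eY_succ eX_succ hn (eY_odd hod) hx.1 hx.2 hx'.2 h)
    (fun H => by
      by_contra hno
      push Not at hno
      have hD : Dominating (Set.range H) := by
        intro g
        obtain ⟨p, hp⟩ := hno g
        exact ⟨H p, ⟨p, rfl⟩, hp⟩
      have h1 := (dominatingNumber_le hD).trans Cardinal.mk_range_le
      have h2 : #((F × ℕ) × ℕ × ℕ) = #(F × ℕ) := by
        simp [Cardinal.mk_prod, mul_assoc]
      rw [h2] at h1
      exact absurd h1 (not_le.2 hι))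
    (hι.trans_le dominatingNumber_le_continuum)
  obtain ⟨f, hf, h | h⟩ := hcov (val eX x) (val eY x)
  · obtain ⟨m, hm⟩ := exists_mem_A (hF hf) (val eX x)
    exact (hx (⟨f, hf⟩, m)).1 ⟨hm, h⟩
  · obtain ⟨m, hm⟩ := exists_mem_A (hF hf) (val eY x)
    exact (hx (⟨f, hf⟩, m)).2 ⟨hm, h⟩

/-- From a cover by differentiable functions and a dominating family one gets a cover by
`C¹` functions. -/
theorem exists_C1_cover {F : Set (ℝ → ℝ)} (hF : F ⊆ D1) (hcov : CoversPlane F)
    {D : Set (ℕ → ℕ)} (hD : Dominating D) :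
    ∃ G : Set (ℝ → ℝ), G ⊆ C1 ∧ CoversPlane G ∧ #G ≤ #F * #D * ℵ₀ := by
  choose G hG hG' using fun (i : F × D × ℕ) =>
    Pool.Agent.Helper77.CoverC1.exists_C1_of_piece (hF i.1.2) (fun n => max (i.2.1.1 n) i.2.2)
  have key : ∀ f : F, ∀ x : ℝ, ∃ i : F × D × ℕ, G i x = f.1 x := by
    intro f x
    obtain ⟨δ, hδ⟩ := Pool.Agent.Helper77.CoverC1.exists_piece (hF f.2) x
    obtain ⟨g, hg, hg'⟩ := hD δ
    obtain ⟨N, hN⟩ := eventually_atTop.1 hg'
    set m := (Finset.range N).sup δ with hm
    refine ⟨⟨f, ⟨g, hg⟩, m⟩, hG' ⟨f, ⟨g, hg⟩, m⟩ x ?_⟩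
    refine Pool.Agent.Helper77.CoverC1.piece_mono (fun n => ?_) hδ
    rcases lt_or_ge n N with h | h
    · exact le_trans (Finset.le_sup (f := δ) (Finset.mem_range.2 h)) (le_max_right _ _)
    · exact le_trans (hN n h) (le_max_left _ _)
  refine ⟨Set.range G, ?_, ?_, ?_⟩
  · rintro _ ⟨i, rfl⟩
    exact hG i
  · intro x y
    obtain ⟨f, hf, h | h⟩ := hcov x y
    · obtain ⟨i, hi⟩ := key ⟨f, hf⟩ x
      exact ⟨G i, ⟨i, rfl⟩, Or.inl (hi.trans h)⟩
    · obtain ⟨i, hi⟩ := key ⟨f, hf⟩ y
      exact ⟨G i, ⟨i, rfl⟩, Or.inr (hi.trans h)⟩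
  · refine Cardinal.mk_range_le.trans ?_
    simp [Cardinal.mk_prod, mul_assoc]

/-- **Main equivalence.** -/
theorem main (κ : Cardinal.{0}) : CoveredByFewer κ C1 ↔ CoveredByFewer κ D1 := by
  constructor
  · rintro ⟨F, hF, hc, hcov⟩
    exact ⟨F, fun f hf => (show ContDiff ℝ 1 f from hF hf).differentiable (by norm_num),
      hc, hcov⟩
  · rintro ⟨F, hF, hc, hcov⟩
    have hd := dominatingNumber_le_of_D1 hF hcov
    obtain ⟨D, hD, hDc⟩ := exists_dominating
    obtain ⟨G, hG, hGcov, hGc⟩ := exists_C1_cover hF hcov hD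
    have hκ : ℵ₀ < κ := (aleph0_lt_dominatingNumber.trans_le hd).trans hc
    refine ⟨G, hG, lt_of_le_of_lt hGc ?_, hGcov⟩
    rw [hDc]
    exact Cardinal.mul_lt_of_lt hκ.le (Cardinal.mul_lt_of_lt hκ.le hc (hd.trans_lt hc)) hκ

theorem result :
    -- for every cardinal `κ`: a cover by fewer than `κ` graphs of `C¹` functions exists iff
    -- a cover by fewer than `κ` graphs of differentiable functions exists
    (∀ κ : Cardinal.{0}, CoveredByFewer κ C1 ↔ CoveredByFewer κ D1) ∧
    -- consequently the implication of Q1 is equivalent to the implication of Q2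
    ((CoveredByFewer 𝔠 C0 → CoveredByFewer 𝔠 C1) ↔
      (CoveredByFewer 𝔠 C0 → CoveredByFewer 𝔠 D1)) := by
  refine ⟨main, ?_⟩
  rw [main 𝔠]

end Pool.Agent.Results.MP_8d1edd_lc.CoverC1EqD1
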